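import Pool.Agent.Q170.After2.Main

/-!
# A three-dimensional cNTV spacetime on which the after-2 formula is valid

The spacetime is `ℝ × T²` with the metric `2 dt dx - t² dx² + (dy - √2 dx)²`, time oriented by the
timelike vector field `((t² - 1) / 2) ∂_t + ∂_x + √2 ∂_y`.  The torus `t = 0` can be crossed only
towards negative `t`, causal curves inside it are the leaves of an irrational foliation, and both
sides of it are totally vicious.
-/

set_option autoImplicit false

namespace Pool.Agent.Results.MP_98ebd8_lc.LineTimesTorus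

open Pool.Agent.Q170.After2

/-- `G t` is a Lorentzian form with the timelike unit vector `T t` for every `t`, some point of
`ℝ × T²` does not lie on a closed causal curve, and the after-2 formula is valid. -/
theorem result :
    (∀ t : ℝ, ∃ e₁ e₂ : ℝ × ℝ × ℝ, G t (T t) (T t) = -1 ∧ G t e₁ e₁ = 1 ∧ G t e₂ e₂ = 1 ∧
      G t (T t) e₁ = 0 ∧ G t (T t) e₂ = 0 ∧ G t e₁ e₂ = 0) ∧
    (∃ p : M, ¬ After p p) ∧ AfterTwoValid After :=
  ⟨lorentz, ⟨(0, 0, 0), cntv rfl⟩, valid⟩

end Pool.Agent.Results.MP_98ebd8_lc.LineTimesTorus
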